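import Pool.Agent.R143.RHEnt

/-!
MP_3f0cb5_an, Q1: the entropy `h θ` of the fiberwise bounded orbits of the rotation-hyperbolic
cocycle is not continuous at `θ = 0`.  Paper proof by helper197.
-/

namespace Pool.Agent.Results.MP_3f0cb5_an.JumpAtZero

open Pool.Agent.R143.RH

theorem result :
    (∀ θ : ℝ, 0 ≤ h θ ∧ h θ ≤ ((Real.log 2 : ℝ) : EReal)) ∧
    h 0 = 0 ∧
    (∀ θ : ℝ, 0 < θ → θ ≤ 1 / 100 → ((Real.log 2 / 12 : ℝ) : EReal) ≤ h θ) ∧
    ¬ ContinuousAt (fun θ : ℝ => (h θ).toReal) 0 := by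
  refine ⟨fun θ => ⟨h_nonneg θ, h_le θ⟩, h_zero, fun θ h0 h1 => lower h0 h1, ?_⟩
  intro hc
  rw [Metric.continuousAt_iff] at hc
  have hlog : 0 < Real.log 2 / 12 := by
    have := Real.log_pos (show (1 : ℝ) < 2 by norm_num)
    positivity
  obtain ⟨δ, hδ, hδ2⟩ := hc (Real.log 2 / 12) hlog
  set θ := min (δ / 2) (1 / 100) with hθ
  have h0 : 0 < θ := lt_min (by positivity) (by norm_num)
  have h1 : θ ≤ 1 / 100 := min_le_right _ _
  have h2 : dist θ 0 < δ := by
    rw [Real.dist_eq, sub_zero, abs_of_pos h0]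
    have := min_le_left (δ / 2) (1 / 100)
    linarith
  have h3 := hδ2 h2
  have h4 := lower h0 h1
  have htop : h θ ≠ ⊤ := ((h_le θ).trans_lt (EReal.coe_lt_top _)).ne
  have h5 : Real.log 2 / 12 ≤ (h θ).toReal := by
    have := EReal.toReal_le_toReal h4 (EReal.coe_ne_bot _) htop
    simpa using this
  simp only [h_zero, EReal.toReal_zero, Real.dist_eq, sub_zero] at h3
  have := le_abs_self ((h θ).toReal)
  linarith

end Pool.Agent.Results.MP_3f0cb5_an.JumpAtZero
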